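import Mathlib

set_option autoImplicit false

/-! # Hadwiger's conjecture for direct products: greedy colouring and bicliques -/

namespace Pool.Agent.J4.H77.DP

/-- If all vertices have fewer than `k` neighbours, then the graph (finite or infinite) is
`k`-colourable: greedy colouring along a well-order. -/
theorem colorable_of_lt {V : Type} (G : SimpleGraph V) (k : ℕ)
    (h : ∀ v, ¬ ∃ f : Fin k → V, Function.Injective f ∧ ∀ i, G.Adj v (f i)) :
    G.Colorable k := by
  classical
  have wf : WellFounded (WellOrderingRel : V → V → Prop) := IsWellFounded.wf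
  have hk : ∀ _ : V, 0 < k := by
    intro v
    by_contra h0
    have h0' : k = 0 := by omega
    subst h0'
    exact h v ⟨Fin.elim0, fun i => i.elim0, fun i => i.elim0⟩
  -- a colour which is not used by the smaller neighbours
  have hfree : ∀ (v : V) (c : (u : V) → WellOrderingRel u v → Fin k),
      ∃ x : Fin k, ∀ (u : V) (hu : WellOrderingRel u v), G.Adj v u → c u hu ≠ x := by
    intro v c
    by_contra hcon
    push Not at hcon
    choose f hf1 hf2 hf3 using hcon
    refine h v ⟨f, ?_, hf2⟩
    intro i j hij
    have h1 := hf3 i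
    have h2 := hf3 j
    rw [← h1, ← h2]
    congr 1
  let F : (v : V) → ((u : V) → WellOrderingRel u v → Fin k) → Fin k :=
    fun v c => (hfree v c).choose
  let c : V → Fin k := wf.fix F
  have hc : ∀ v u : V, WellOrderingRel u v → G.Adj v u → c u ≠ c v := by
    intro v u huv hadj
    have h1 : c v = F v (fun u _ => c u) := wf.fix_eq F v
    rw [h1]
    exact (hfree v (fun u _ => c u)).choose_spec u huv hadj
  refine ⟨SimpleGraph.Coloring.mk c ?_⟩
  intro u v huv
  rcases trichotomous_of (WellOrderingRel : V → V → Prop) u v with h1 | h1 | h1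
  · exact hc v u h1 huv.symm
  · exact absurd h1 huv.ne
  · exact (hc u v h1 huv).symm

/-- A graph which is not `k`-colourable has a vertex with at least `k` neighbours. -/
theorem exists_star {V : Type} (G : SimpleGraph V) (k : ℕ) (h : ¬ G.Colorable k) :
    ∃ v : V, ∃ f : Fin k → V, Function.Injective f ∧ ∀ i, G.Adj v (f i) := by
  by_contra hcon
  push Not at hcon
  exact h (colorable_of_lt G k fun v ⟨f, hf1, hf2⟩ => by
    obtain ⟨i, hi⟩ := hcon v f hf1
    exact hi (hf2 i))

theorem conn_one {V : Type} (G : SimpleGraph V) (x : V) : (G.induce {x}).Connected := by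
  have : Nonempty ({x} : Set V) := ⟨⟨x, rfl⟩⟩
  refine ⟨fun a b => ?_⟩
  have : a = b := Subtype.ext (by rw [a.2, b.2])
  subst this
  exact SimpleGraph.Reachable.refl _

theorem conn_two {V : Type} (G : SimpleGraph V) (x y : V) (h : G.Adj x y) :
    (G.induce {x, y}).Connected := by
  have : Nonempty ({x, y} : Set V) := ⟨⟨x, Or.inl rfl⟩⟩
  refine ⟨fun a b => ?_⟩
  have key : ∀ a : ({x, y} : Set V), (G.induce {x, y}).Reachable ⟨x, Or.inl rfl⟩ a := by
    rintro ⟨a, ha⟩
    rcases ha with rfl | ha
    · exact SimpleGraph.Reachable.refl _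
    · have ha' : a = y := ha
      subst ha'
      exact SimpleGraph.Adj.reachable (by simpa using h)
  exact (key a).symm.trans (key b)

/-- **Bicliques have clique minors.** If `a i` and `b j` are adjacent for all `i, j < k`, all
vertices being different, then `K_(k+1)` is a minor. -/
theorem minor_of_biclique {V : Type} (G : SimpleGraph V) (k : ℕ) (a b : Fin k → V)
    (ha : Function.Injective a) (hb : Function.Injective b) (hab : ∀ i j, G.Adj (a i) (b j)) :
    0 < k →
    ∃ B : Fin (k + 1) → Set V, (∀ i, (G.induce (B i)).Connected) ∧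
      (∀ i j, i ≠ j → Disjoint (B i) (B j)) ∧
      ∀ i j, i ≠ j → ∃ u ∈ B i, ∃ v ∈ B j, G.Adj u v := by
  intro hk
  obtain ⟨m, rfl⟩ : ∃ m, k = m + 1 := ⟨k - 1, by omega⟩
  have hne : ∀ i j, a i ≠ b j := fun i j => (hab i j).ne
  -- branch sets: `{a i, b i}` for `i < m`, then `{a m}` and `{b m}`
  let B : Fin (m + 1 + 1) → Set V := fun i =>
    if h : (i : ℕ) < m then {a ⟨i, by omega⟩, b ⟨i, by omega⟩}
    else if (i : ℕ) = m then {a (Fin.last m)} else {b (Fin.last m)}
  have hB1 : ∀ (i : Fin (m + 1 + 1)) (h : (i : ℕ) < m),
      B i = {a ⟨i, by omega⟩, b ⟨i, by omega⟩} := by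
    intro i h; simp only [B, dif_pos h]
  have hB2 : ∀ i : Fin (m + 1 + 1), (i : ℕ) = m → B i = {a (Fin.last m)} := by
    intro i h
    have : ¬ (i : ℕ) < m := by omega
    simp only [B, dif_neg this, if_pos h]
  have hB3 : ∀ i : Fin (m + 1 + 1), ¬ (i : ℕ) < m → (i : ℕ) ≠ m → B i = {b (Fin.last m)} := by
    intro i h h'
    simp only [B, dif_neg h, if_neg h']
  refine ⟨B, ?_, ?_, ?_⟩
  · intro i
    by_cases h1 : (i : ℕ) < m
    · rw [hB1 i h1]; exact conn_two G _ _ (hab _ _)
    · by_cases h2 : (i : ℕ) = m
      · rw [hB2 i h2]; exact conn_one G _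
      · rw [hB3 i h1 h2]; exact conn_one G _
  · intro i j hij
    have hij' : (i : ℕ) ≠ j := fun h => hij (Fin.ext h)
    rw [Set.disjoint_left]
    intro x hx hy
    have hi := i.2
    have hj := j.2
    by_cases h1 : (i : ℕ) < m
    · rw [hB1 i h1] at hx
      by_cases h2 : (j : ℕ) < m
      · rw [hB1 j h2] at hy
        rcases hx with rfl | hx
        · rcases hy with hy | hy
          · exact hij' (by simpa using ha hy)
          · exact hne _ _ hy
        · have hx' : x = _ := hx
          subst hx'
          rcases hy with hy | hy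
          · exact hne _ _ hy.symm
          · exact hij' (by simpa using hb hy)
      · by_cases h3 : (j : ℕ) = m
        · rw [hB2 j h3] at hy
          have hy' : x = _ := hy
          rcases hx with hx | hx
          · have := ha (hx.symm.trans hy')
            simp only [Fin.ext_iff, Fin.val_last] at this
            omega
          · have hx' : x = _ := hx
            exact hne _ _ (hy'.symm.trans hx')
        · rw [hB3 j h2 h3] at hy
          have hy' : x = _ := hy
          rcases hx with hx | hx
          · exact hne _ _ (hx.symm.trans hy')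
          · have hx' : x = _ := hx
            have := hb (hx'.symm.trans hy')
            simp only [Fin.ext_iff, Fin.val_last] at this
            omega
    · by_cases h2 : (i : ℕ) = m
      · rw [hB2 i h2] at hx
        have hx' : x = _ := hx
        by_cases h3 : (j : ℕ) < m
        · rw [hB1 j h3] at hy
          rcases hy with hy | hy
          · have := ha (hy.symm.trans hx')
            simp only [Fin.ext_iff, Fin.val_last] at this
            omega
          · have hy' : x = _ := hy
            exact hne _ _ (hx'.symm.trans hy')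
        · by_cases h4 : (j : ℕ) = m
          · omega
          · rw [hB3 j h3 h4] at hy
            have hy' : x = _ := hy
            exact hne _ _ (hx'.symm.trans hy')
      · rw [hB3 i h1 h2] at hx
        have hx' : x = _ := hx
        by_cases h3 : (j : ℕ) < m
        · rw [hB1 j h3] at hy
          rcases hy with hy | hy
          · exact hne _ _ (hy.symm.trans hx')
          · have hy' : x = _ := hy
            have := hb (hy'.symm.trans hx')
            simp only [Fin.ext_iff, Fin.val_last] at this
            omega
        · by_cases h4 : (j : ℕ) = m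
          · rw [hB2 j h4] at hy
            have hy' : x = _ := hy
            exact hne _ _ (hy'.symm.trans hx')
          · omega
  · -- every branch set contains some `a`, or it is the last one; and some `b`, or it is `{a m}`
    intro i j hij
    have hij' : (i : ℕ) ≠ j := fun h => hij (Fin.ext h)
    have hi := i.2
    have hj := j.2
    have hA : ∀ i : Fin (m + 1 + 1), (i : ℕ) ≤ m → ∃ p, a p ∈ B i := by
      intro i hi'
      by_cases h1 : (i : ℕ) < m
      · rw [hB1 i h1]; exact ⟨_, Or.inl rfl⟩
      · rw [hB2 i (by omega)]; exact ⟨_, rfl⟩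
    have hBb : ∀ i : Fin (m + 1 + 1), (i : ℕ) ≠ m → ∃ p, b p ∈ B i := by
      intro i hi'
      by_cases h1 : (i : ℕ) < m
      · rw [hB1 i h1]; exact ⟨_, Or.inr rfl⟩
      · rw [hB3 i h1 hi']; exact ⟨_, rfl⟩
    by_cases h1 : (j : ℕ) = m
    · -- `B j = {a m}`
      obtain ⟨p, hp⟩ := hBb i (by omega)
      obtain ⟨q, hq⟩ := hA j (by omega)
      exact ⟨_, hp, _, hq, (hab q p).symm⟩
    · obtain ⟨q, hq⟩ := hBb j h1
      by_cases h2 : (i : ℕ) ≤ m
      · obtain ⟨p, hp⟩ := hA i h2
        exact ⟨_, hp, _, hq, hab p q⟩
      · obtain ⟨p, hp⟩ := hBb i (by omega)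
        obtain ⟨q', hq'⟩ := hA j (by omega)
        exact ⟨_, hp, _, hq', (hab q' p).symm⟩

end Pool.Agent.J4.H77.DP
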